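import Pool.Agent.N600.L3.Stm

/-! Project L3 (helper600): one line. -/

set_option autoImplicit false

namespace Pool.Agent.N572.L3

open Pool.Agent.N600.L3

universe u

theorem jensen {ι : Type*} [Fintype ι] (N : ι → ℝ) (A : ℝ) (hA : 0 < A) (hN : ∀ i, 0 < N i)
    (h : ∑ i, N i ≤ Fintype.card ι * A) :
    ∑ i, Real.log (N i) ≤ Fintype.card ι * Real.log A := by
  have h1 : ∀ i, Real.log (N i) ≤ Real.log A + (N i / A - 1) := by
    intro i
    have h2 := Real.log_le_sub_one_of_pos (div_pos (hN i) hA)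
    rw [Real.log_div (hN i).ne' hA.ne'] at h2
    linarith
  calc ∑ i, Real.log (N i) ≤ ∑ i, (Real.log A + (N i / A - 1)) :=
        Finset.sum_le_sum fun i _ => h1 i
    _ = Fintype.card ι * Real.log A + ((∑ i, N i) / A - Fintype.card ι) := by
      rw [Finset.sum_add_distrib, Finset.sum_sub_distrib, Finset.sum_div]
      simp
    _ ≤ _ := by
      have h3 : (∑ i, N i) / A ≤ Fintype.card ι := by
        rw [div_le_iff₀ hA]
        exact h
      linarith

/-- collisions in one line -/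
def PP {F : Type u} [Field F] (t : F) {K : ℕ} (k : Fin K) (σ : (Fin K → Bool) → Fˣ) (R : ℕ)
    (δ : Fin K → Fin R → Bool) (x : Fin R → Bool) : Prop :=
  ∑ r : Fin R, t ^ (r : ℕ) * (σ (fun i => δ i r) : F) * (if x r then 1 else 0) =
    ∑ r : Fin R, t ^ (r : ℕ) * (σ (fun i => δ i r) : F) * (if δ k r then 1 else 0)

/-- collisions with noise -/
def QQ {F : Type u} [Field F] (t : F) {K : ℕ} (σ : (Fin K → Bool) → Fˣ) (R : ℕ)
    (f : Fin R → (Fin K → Bool) × Bool × Bool) : Prop :=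
  ∑ r : Fin R, t ^ (r : ℕ) * (σ (f r).1 : F) *
    ((if (f r).2.1 then 1 else 0) - (if (f r).2.2 then 1 else 0)) = 0

theorem count_le {F : Type u} [Field F] (t : F) {K : ℕ} (k : Fin K) (σ : (Fin K → Bool) → Fˣ)
    (hσ : ∀ x x', (∀ i < k, x i = x' i) → σ x = σ x') (R : ℕ) :
    2 ^ R * ∑ δ : Fin K → Fin R → Bool, Nat.card {x : Fin R → Bool // PP t k σ R δ x} ≤
      Nat.card {f : Fin R → (Fin K → Bool) × Bool × Bool // QQ t σ R f} := by
  classical
  have e1 : 2 ^ R * ∑ δ : Fin K → Fin R → Bool, Nat.card {x : Fin R → Bool // PP t k σ R δ x} =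
      Nat.card ((Fin R → Bool) ×
        (Σ δ : Fin K → Fin R → Bool, {x : Fin R → Bool // PP t k σ R δ x})) := by
    rw [Nat.card_prod, Nat.card_sigma]
    congr 1
    rw [Nat.card_eq_fintype_card, Fintype.card_fun, Fintype.card_bool, Fintype.card_fin]
  rw [e1]
  have hQ : ∀ p : (Fin R → Bool) ×
      (Σ δ : Fin K → Fin R → Bool, {x : Fin R → Bool // PP t k σ R δ x}),
      QQ t σ R (fun r => (Function.update (fun i => p.2.1 i r) k (p.1 r), p.2.2.1 r,
        p.2.1 k r)) := by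
    rintro ⟨y, δ, x, hx⟩
    have h1 : ∀ r, σ (Function.update (fun i => δ i r) k (y r)) = σ (fun i => δ i r) :=
      fun r => hσ _ _ fun i hi => Function.update_of_ne hi.ne _ _
    show ∑ r : Fin R, t ^ (r : ℕ) * (σ (Function.update (fun i => δ i r) k (y r)) : F) *
      ((if x r then 1 else 0) - (if δ k r then 1 else 0)) = 0
    simp only [h1, mul_sub, Finset.sum_sub_distrib]
    exact sub_eq_zero.2 hx
  refine Nat.card_le_card_of_injective (fun p => (⟨_, hQ p⟩ :
    {f : Fin R → (Fin K → Bool) × Bool × Bool // QQ t σ R f})) ?_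
  rintro ⟨y, δ, x, hx⟩ ⟨y', δ', x', hx'⟩ h
  have h0 := fun r => congrFun (congrArg Subtype.val h) r
  have h1 : ∀ r, Function.update (fun i => δ i r) k (y r) =
      Function.update (fun i => δ' i r) k (y' r) := fun r => congrArg Prod.fst (h0 r)
  have h2 : ∀ r, x r = x' r := fun r => congrArg (fun q => q.2.1) (h0 r)
  have h3 : ∀ r, δ k r = δ' k r := fun r => congrArg (fun q => q.2.2) (h0 r)
  obtain rfl : y = y' := by
    funext r
    have := congrFun (h1 r) k
    rwa [Function.update_self, Function.update_self] at this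
  obtain rfl : δ = δ' := by
    funext i r
    by_cases hi : i = k
    · rw [hi]
      exact h3 r
    · have := congrFun (h1 r) i
      rwa [Function.update_of_ne hi, Function.update_of_ne hi] at this
  obtain rfl : x = x' := funext h2
  rfl

theorem t_lin (h1 : S_NOIF.{u}) (h2 : S_COL) : S_LIN.{u} := by
  intro F _ _ t B hB hE ht ht' K k σ hσ hint R
  obtain ⟨n, x, hx, hx1, hxc, hxB⟩ := hE
  obtain ⟨β, hβ⟩ : ∃ β, β = Real.exp (-(1 - 1 / B)) := ⟨_, rfl⟩
  have hβ0 : 0 < β := by rw [hβ]; exact Real.exp_pos _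
  have hphi : phi B = -Real.log ((3 + β) / 4) := by rw [hβ]; rfl
  -- the three counts
  have c1 := count_le (t : F) k σ hσ R
  have c2 := h1 F R t (Fin K → Bool) σ ht ht' hint
  have c3 : (Nat.card {g : Fin R → Bool × Bool × Bool //
      ∑ r : Fin R, (t : F) ^ (r : ℕ) * ((ee (g r) : ℤ) : F) = 0} : ℝ) ≤ (6 + 2 * β) ^ R := by
    have h3 := h2 n x hx hx1 R
    have hm : ∀ g : {g : Fin R → Bool × Bool × Bool //
        ∑ r : Fin R, (t : F) ^ (r : ℕ) * ((ee (g r) : ℤ) : F) = 0},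
        ∀ j, ∑ r : Fin R, ((ee (g.1 r) : ℤ) : ℂ) * x j ^ (r : ℕ) = 0 := by
      intro g
      apply hxc R (fun r => ee (g.1 r))
      refine Eq.trans ?_ g.2
      exact Finset.sum_congr rfl fun r _ => mul_comm _ _
    have h4 : Nat.card {g : Fin R → Bool × Bool × Bool //
        ∑ r : Fin R, (t : F) ^ (r : ℕ) * ((ee (g r) : ℤ) : F) = 0} ≤
        Nat.card {g : Fin R → Bool × Bool × Bool //
          ∀ j, ∑ r : Fin R, ((ee (g r) : ℤ) : ℂ) * x j ^ (r : ℕ) = 0} := by
      refine Nat.card_le_card_of_injective (fun g => (⟨g.1, hm g⟩ :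
        {g : Fin R → Bool × Bool × Bool //
          ∀ j, ∑ r : Fin R, ((ee (g r) : ℤ) : ℂ) * x j ^ (r : ℕ) = 0})) ?_
      intro g g' h
      have := congrArg Subtype.val h
      exact Subtype.ext this
    have h5 : W963.GE.al x ≤ β := by
      rw [hβ]
      unfold W963.GE.al
      apply Real.exp_le_exp.2
      have := one_div_le_one_div_of_le (by linarith : (0 : ℝ) < B) hxB
      linarith
    have h6 : 0 < W963.GE.al x := Real.exp_pos _
    have h7 : ((6 : ℝ) + 2 * W963.GE.al x) ^ R ≤ (6 + 2 * β) ^ R :=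
      pow_le_pow_left₀ (by positivity) (by linarith) R
    have h8 : (Nat.card {g : Fin R → Bool × Bool × Bool //
        ∑ r : Fin R, (t : F) ^ (r : ℕ) * ((ee (g r) : ℤ) : F) = 0} : ℝ) ≤
        Nat.card {g : Fin R → Bool × Bool × Bool //
          ∀ j, ∑ r : Fin R, ((ee (g r) : ℤ) : ℂ) * x j ^ (r : ℕ) = 0} := by exact_mod_cast h4
    exact h8.trans (h3.trans h7)
  -- real numbers
  obtain ⟨Ng, hNg⟩ : ∃ m : ℕ, m = Nat.card {g : Fin R → Bool × Bool × Bool //
      ∑ r : Fin R, (t : F) ^ (r : ℕ) * ((ee (g r) : ℤ) : F) = 0} := ⟨_, rfl⟩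
  obtain ⟨Nf, hNf⟩ : ∃ m : ℕ, m = Nat.card {f : Fin R → (Fin K → Bool) × Bool × Bool //
      QQ (t : F) σ R f} := ⟨_, rfl⟩
  have c2' : 8 ^ R * Nf ≤ (4 * 2 ^ K) ^ R * Ng := by
    rw [hNf, hNg]
    have h3 : Fintype.card (Fin K → Bool) = 2 ^ K := by
      rw [Fintype.card_fun, Fintype.card_bool, Fintype.card_fin]
    rw [h3] at c2
    exact c2
  rw [← hNg] at c3
  rw [← hNf] at c1
  have d1 : (2 : ℝ) ^ R * ∑ δ : Fin K → Fin R → Bool,
      (Nat.card {x : Fin R → Bool // PP (t : F) k σ R δ x} : ℝ) ≤ Nf := by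
    exact_mod_cast c1
  have d2 : (8 : ℝ) ^ R * Nf ≤ (4 * 2 ^ K) ^ R * Ng := by exact_mod_cast c2'
  have hA : (0 : ℝ) < (2 * ((3 + β) / 4)) ^ R := by positivity
  have hcard : (Fintype.card (Fin K → Fin R → Bool) : ℝ) = 2 ^ (K * R) := by
    rw [Fintype.card_fun, Fintype.card_fun, Fintype.card_bool, Fintype.card_fin, Fintype.card_fin]
    push_cast
    rw [← pow_mul, mul_comm]
  have key : ∑ δ : Fin K → Fin R → Bool,
      (Nat.card {x : Fin R → Bool // PP (t : F) k σ R δ x} : ℝ) ≤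
      Fintype.card (Fin K → Fin R → Bool) * (2 * ((3 + β) / 4)) ^ R := by
    rw [hcard]
    have h16 : (0 : ℝ) < 8 ^ R * 2 ^ R := by positivity
    refine le_of_mul_le_mul_left ?_ h16
    calc (8 : ℝ) ^ R * 2 ^ R * ∑ δ : Fin K → Fin R → Bool,
          (Nat.card {x : Fin R → Bool // PP (t : F) k σ R δ x} : ℝ)
        = 8 ^ R * (2 ^ R * ∑ δ : Fin K → Fin R → Bool,
          (Nat.card {x : Fin R → Bool // PP (t : F) k σ R δ x} : ℝ)) := by ring
      _ ≤ 8 ^ R * Nf := mul_le_mul_of_nonneg_left d1 (by positivity)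
      _ ≤ (4 * 2 ^ K) ^ R * Ng := d2
      _ ≤ (4 * 2 ^ K) ^ R * (6 + 2 * β) ^ R := mul_le_mul_of_nonneg_left c3 (by positivity)
      _ = 8 ^ R * 2 ^ R * (2 ^ (K * R) * (2 * ((3 + β) / 4)) ^ R) := by
        rw [pow_mul, ← mul_pow, ← mul_pow, ← mul_pow, ← mul_pow]
        congr 1
        ring
  have hpos : ∀ δ : Fin K → Fin R → Bool,
      (0 : ℝ) < (Nat.card {x : Fin R → Bool // PP (t : F) k σ R δ x} : ℝ) := by
    intro δ
    have : Nonempty {x : Fin R → Bool // PP (t : F) k σ R δ x} := ⟨⟨δ k, rfl⟩⟩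
    exact_mod_cast Nat.card_pos
  have fin := jensen (fun δ : Fin K → Fin R → Bool =>
    (Nat.card {x : Fin R → Bool // PP (t : F) k σ R δ x} : ℝ)) _ hA hpos key
  have hlog : Real.log ((2 * ((3 + β) / 4)) ^ R) = R * (Real.log 2 - phi B) := by
    rw [Real.log_pow, Real.log_mul (by norm_num) (by positivity), hphi]
    ring
  rw [hcard, hlog] at fin
  exact fin

end Pool.Agent.N572.L3
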